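import Pool.Agent.H5.PC.Main
import Pool.Agent.H5.PC.Act

/-! # MP_c69c51_an : peak points of domains with the symmetries of a classical bounded symmetric domain

The classical bounded symmetric domains are, up to isomorphism, the products of unit balls (operator norms) of the
following spaces: (I) `m` by `m + k` matrices, (II) skew symmetric matrices, (III) symmetric matrices, (IV) the Lie ball in
`ℂ ^ (n + 3)`. The isotropy group at `0` acts linearly: `Z ↦ U * Z * W` with unitary `U`, `W` for type I, `Z ↦ U * Z * Uᵀ`
for types II and III, `z ↦ u z O` with `|u| = 1` and a rotation `O` for type IV.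

Let `D` be the set `ρ < 0` in such a product of spaces, where `ρ` is of class `C²`, with nonzero differential and nonnegative
Levi form at its zeros, and let `D` be bounded, connected and invariant under the isotropy group. Then every boundary point
of `D` is a peak point for `A(D)` if and only if the boundary contains no nonconstant analytic disc. In particular, if the
boundary is of finite type then every boundary point is a peak point. -/

namespace Pool.Agent.Results.MP_c69c51_an.ClassicalIsotropy

open H5.PK H5.PC
open scoped Matrix.Norms.Elementwise

section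

variable {V : Type} [NormedAddCommGroup V] [NormedSpace ℂ V]

/-- the set `ρ < 0` is a bounded pseudoconvex domain and `ρ` is a defining function of class `C²` -/
structure PseudoconvexDomain (ρ : V → ℝ) : Prop where
  bounded : Bornology.IsBounded {z | ρ z < 0}
  connected : IsConnected {z | ρ z < 0}
  smooth : ContDiff ℝ 2 ρ
  regular : ∀ p, ρ p = 0 → fderiv ℝ ρ p ≠ 0
  levi : ∀ p, ρ p = 0 → ∀ w : V, fderiv ℝ ρ p w = 0 → fderiv ℝ ρ p (Complex.I • w) = 0 →
    0 ≤ iteratedFDeriv ℝ 2 ρ p ![w, w] + iteratedFDeriv ℝ 2 ρ p ![Complex.I • w, Complex.I • w]

/-- every boundary point of `ρ < 0` is a peak point for the algebra of functions continuous on the closure and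
holomorphic inside -/
def EveryPointPeak (ρ : V → ℝ) : Prop := ∀ p ∈ frontier {z | ρ z < 0}, Peak {z | ρ z < 0} p

/-- every boundary point of `ρ < 0` is of finite type in the sense of D'Angelo -/
def EveryPointFinType (ρ : V → ℝ) : Prop := ∀ p ∈ frontier {z | ρ z < 0}, FinType ρ p

end

variable {L : Type}

/-- the set `ρ < 0` is invariant under the isotropy group at `0` of the product of the classical domains of types `c l` -/
def Invariant (c : L → Fac) (ρ : Space c → ℝ) : Prop :=
  ∀ Z Z' : Space c, (∀ l, (c l).Act (Z l).1 (Z' l).1) → ρ Z < 0 → ρ Z' < 0

theorem result [Fintype L] (c : L → Fac) (ρ : Space c → ℝ)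
    (hD : PseudoconvexDomain ρ) (hK : Invariant c ρ) :
    (EveryPointPeak ρ ↔ NoDisc ρ) ∧ (EveryPointFinType ρ → EveryPointPeak ρ) := by
  classical
  exact main (c := c) hD.bounded hD.connected hD.smooth hD.regular hD.levi
    (fun Z Z' h => hK Z Z' (fun l => act_of_group (c l) (h l)))

end Pool.Agent.Results.MP_c69c51_an.ClassicalIsotropy
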